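import Pool.Agent.SZT.StmtsA

/-! SZT, row CVX (monotone and convex in log R). -/

namespace Pool.Agent.SZT.H75

open Pool.Agent.SZT

theorem log_max {R t : ℝ} (hR : 0 < R) (ht : 0 < t) :
    Real.log (max R t) = max (Real.log R) (Real.log t) := by
  rcases le_total R t with h | h
  · rw [max_eq_right h, max_eq_right (Real.log_le_log hR h)]
  · rw [max_eq_left h, max_eq_left (Real.log_le_log ht h)]

theorem term_cvx {R₀ R R₁ τ t : ℝ} (h0 : 0 < R₀) (h : 0 < R) (h1 : 0 < R₁) (hτ : 0 ≤ τ)
    (hτ1 : τ ≤ 1) (ht : 0 ≤ t) (hR : Real.log R = (1 - τ) * Real.log R₀ + τ * Real.log R₁) :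
    Real.log (max R t) ≤ (1 - τ) * Real.log (max R₀ t) + τ * Real.log (max R₁ t) := by
  rcases ht.eq_or_lt with h2 | h2
  · rw [← h2, max_eq_left h.le, max_eq_left h0.le, max_eq_left h1.le, hR]
  · rw [log_max h h2, log_max h0 h2, log_max h1 h2, hR]
    have a0 := le_max_left (Real.log R₀) (Real.log t)
    have a1 := le_max_left (Real.log R₁) (Real.log t)
    have b0 := le_max_right (Real.log R₀) (Real.log t)
    have b1 := le_max_right (Real.log R₁) (Real.log t)
    have hτ' : 0 ≤ 1 - τ := by linarith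
    refine max_le ?_ ?_
    · exact add_le_add (mul_le_mul_of_nonneg_left a0 hτ') (mul_le_mul_of_nonneg_left a1 hτ)
    · have c0 := mul_le_mul_of_nonneg_left b0 hτ'
      have c1 := mul_le_mul_of_nonneg_left b1 hτ
      linarith

theorem cvx : CvxStmt := by
  intro E _ v Z p
  constructor
  · intro R S hR hRS
    unfold JJ
    refine Multiset.sum_map_le_sum_map _ _ fun ζ _ => ?_
    exact Real.log_le_log (lt_of_lt_of_le hR (le_max_left _ _)) (max_le_max hRS le_rfl)
  · intro R₀ R R₁ τ h0 h h1 hτ hτ1 hR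
    unfold JJ
    rw [← Multiset.sum_map_mul_left, ← Multiset.sum_map_mul_left, ← Multiset.sum_map_add]
    refine Multiset.sum_map_le_sum_map _ _ fun ζ _ => ?_
    exact term_cvx h0 h h1 hτ hτ1 (v.nonneg _) hR

end Pool.Agent.SZT.H75
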